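import Pool.Agent.K9h25.M.Cur

/-!
# Kodaira dimension `-∞` and uniruledness for images of mildly singular hypersurfaces fibred by curves

Let `V` be a component of the hypersurface `f = 0` in the torus with the coordinates
`t 1, ..., t n, x, y`. The hypersurface is supposed to be mild along `V`: for all integral vectors
`v` the logarithmic Hessian of the initial part `ini v f` (the sum of the terms on which the linear
function `v` is minimal) has rank at least two, and at least three if `v = 0`, at all the points of the
initial degeneration of `V` in the direction `v` at which the logarithmic gradient of `ini v f`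
vanishes. So `V` may be singular in the torus (double points of rank at least three, along
subvarieties of any dimension) and on all strata at infinity (rank at least two); the nondegenerate
hypersurfaces in the sense of Khovanskii are those without such points.

Suppose that `x` and `y` appear in `f` only with exponents `(i, j)` in the trapezoid `T` given by
`0 ≤ j ≤ b`, `0 ≤ i ≤ a + s (b - j)`; the Newton polytope of `f` is arbitrary otherwise. Suppose that
`t 1, ..., t n, x` are algebraically independent on `V`, and that the generic fibres of the map
`V ⇢ V' = (ℙ ^ 1) ^ n` given by `t` are irreducible; they are curves of arbitrary genus. Suppose that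
for all lattice points `(i, j)` in the interior of `T` there is a vector `u i j` over `(i, j)` such
that `u i j` and the `u i j + M e l`, where `e 1, ..., e n` are the unit vectors of the coordinates
`t`, are in the Fine interior of the Newton polytope of `f`. For example, `V` may be a
hypersurface of multidegree `(e 1, ..., e n, a, b)` in `(ℙ ^ 1) ^ (n + 2)` with `e l ≥ M + 2`.

Let `V ⇢ W` be any dominant rational map of finite degree (it is not assumed to be related to the
fibration, it need not be a quotient by a group, and its ramification is arbitrary), and let `m` be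
the degree over `W` of the image `W'` of `V` in `W × V'`.

* If `m ≤ M + 1` then `p_g(W) = 0` if and only if `κ(W) = -∞`, if and only if `K_W` is not
  pseudo-effective, if and only if `W` is uniruled.
* If `2 m ≤ M + 1` then `W` is uniruled or `κ(W) ≥ n = dim W - 1`.

So for all projective manifolds `X` which are birational to such an image `W`, `κ(X) = -∞` implies
that `X` is uniruled, and therefore it has a Gauduchon metric with positive total scalar curvature.

Proof. The starting theorem `MP_97d78d_ag.CurveFibrations` is the case of nondegenerate `f`. Its
proof, which is followed here (`Pool/Agent/K9h25/M/Cur.lean`), uses the traces on `W` and on `W'` of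
the forms `A(t) x ^ (u i j) Res`. These forms are regular for mild hypersurfaces: at a prime divisor
at whose general point the initial part of `f` is singular, with a Hessian of rank `s + 1`, the order
of `Res` is at least `s - 2 - min ⟨supp f, v⟩` (`Pool/Agent/K9h25/M/Img.lean`).
-/

set_option autoImplicit false
set_option linter.overlappingInstances false

open FF Module Pool.Agent Pool.Agent.W602.GT Pool.Agent.R885
open Pool.Agent.W619.PQ (IsUniruled)

namespace Pool.Agent.Results.MP_23b606_ag.MildCurveFibrations

/-- The logarithmic Hessian matrix of `f` at the point `c` of the torus: the matrix of the second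
derivatives with respect to the logarithms of the coordinates. -/
noncomputable def logHessian {r : ℕ} (c : Fin r → ℂ) (f : (Fin r → ℤ) →₀ ℂ) :
    Matrix (Fin r) (Fin r) ℂ :=
  Matrix.of fun i j => f.sum fun m a => a * ((m i * m j : ℤ) : ℂ) * R885.mono c m

/-- The hypersurface `f = 0` is mild along its component with the generic point `z`: for all
integral vectors `v`, at the points `c` of the initial degeneration of this component in the
direction `v` at which the logarithmic gradient of `ini v f` vanishes, the logarithmic Hessian of
`ini v f` has rank at least two, and at least three if `v = 0`. -/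
def IsMild {K : Type} [Field K] [Algebra ℂ K] {r : ℕ} (f : (Fin r → ℤ) →₀ ℂ) (z : Fin r → K) :
    Prop :=
  ∀ (v : Fin r → ℤ) (c : Fin r → ℂ), (∀ i, c i ≠ 0) →
    (∀ g : (Fin r → ℤ) →₀ ℂ, ev z g = 0 → ev c (ini v g) = 0) → gr c (ini v f) = 0 →
      2 ≤ (logHessian c (ini v f)).rank ∧ (v = 0 → 3 ≤ (logHessian c (ini v f)).rank)

/-- The integral vector `u` is in the Fine interior of the Newton polytope of `f`. -/
def InFine {r : ℕ} (f : (Fin r → ℤ) →₀ ℂ) (u : Fin r → ℤ) : Prop :=
  ∀ v : Fin r → ℤ, v ≠ 0 → 1 + mn v f ≤ u ⬝ᵥ v

/-- The exponents `(i, j)` of the last two variables in `f` are in the trapezoid `0 ≤ j ≤ b`,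
`0 ≤ i ≤ a + s (b - j)`. -/
def InTrapezoid {n : ℕ} (f : (Fin (n + 2) → ℤ) →₀ ℂ) (a s b : ℕ) : Prop :=
  ∀ m ∈ f.support, 0 ≤ m (Fin.last n).castSucc ∧
    m (Fin.last n).castSucc ≤ a + s * (b - m (Fin.last (n + 1))) ∧
    0 ≤ m (Fin.last (n + 1)) ∧ m (Fin.last (n + 1)) ≤ b

/-- The lattice point `(i, j)` is in the interior of the trapezoid. -/
def Interior (a s b i j : ℕ) : Prop := 1 ≤ i ∧ 1 ≤ j ∧ j + 1 ≤ b ∧ i + 1 ≤ a + s * (b - j)

/-- The geometric genus of the variety with the function field `L` is zero: the only canonical form
which is regular at all prime divisors is `0`. -/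
def GenusZero (L : Type) [Field L] [Algebra ℂ L] (n : ℕ) : Prop :=
  ∀ ω : (Fin n → Derivation ℂ L L) → L, IsPluri 1 ω →
    (∀ P : Place ℂ L, Divisorial n P → RegAt P ω) → ∀ D, ω D = 0

/-- **Images of fibrations by curves.** Let `V` be a component of the zero set of a Laurent
polynomial `f` in the variables `t l`, `x`, `y`, with function field `K` and generic point `z`, along
which the hypersurface `f = 0` is mild, and let the exponents of `x`, `y` be in a trapezoid. Suppose that the `t l` and `x` are
algebraically independent on `V`, that the generic fibres of the map `V ⇢ V'` given by the `t l` are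
irreducible, and that for all lattice points `(i, j)` in the interior of the trapezoid there is a
vector `u i j` over it such that `u i j` and the `u i j + M e l` are in the Fine interior. Let
`V ⇢ W` be a dominant rational map of finite degree, `L` the function field of `W`, and `m` the degree
over `W` of the image of `V` in `W × V'`.
If `m ≤ M + 1` then `p_g(W) = 0` if and only if `κ(W) = -∞`, if and only if `K_W` is not
pseudo-effective, if and only if `W` is uniruled. If `2 m ≤ M + 1` then `W` is uniruled or
`κ(W) ≥ n = dim W - 1`. -/
theorem result {n a s b M : ℕ} (hM : 1 ≤ M) {f : (Fin (n + 2) → ℤ) →₀ ℂ}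
    (hT : InTrapezoid f a s b) {K : Type} [Field K] [Algebra ℂ K]
    {z : Fin (n + 2) → K} (hf : IsMild f z) (hz : ∀ i, z i ≠ 0) (hfz : ev z f = 0)
    (hgen : IntermediateField.adjoin ℂ (Set.range z) = ⊤) (hK : Algebra.trdeg ℂ K = (n + 1 : ℕ))
    (hind : AlgebraicIndependent ℂ fun i : Fin (n + 1) => z i.castSucc)
    {t : Fin n → K} (ht : ∀ l, t l = z l.castSucc.castSucc)
    (hcl : ∀ g : K, IsAlgebraic (IntermediateField.adjoin ℂ (Set.range t)) g →
      g ∈ IntermediateField.adjoin ℂ (Set.range t))
    {u : ℕ → ℕ → Fin (n + 2) → ℤ}
    (hu : ∀ i j, Interior a s b i j → u i j (Fin.last n).castSucc = i ∧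
      u i j (Fin.last (n + 1)) = j ∧ InFine f (u i j) ∧
      ∀ l : Fin n, InFine f (u i j + (M : ℤ) • Pi.single l.castSucc.castSucc 1))
    (L : Type) [Field L] [Algebra ℂ L] [Algebra L K] [IsScalarTower ℂ L K]
    [FiniteDimensional L K] :
    (Module.finrank L (IntermediateField.adjoin L (Set.range t)) ≤ M + 1 →
      [GenusZero L (n + 1), ¬ KodGe ℂ L (n + 1) (fun _ => False) 0,
        ¬ Psef ℂ L (n + 1) (fun _ => False), IsUniruled ℂ L (n + 1)].TFAE) ∧
    (2 * Module.finrank L (IntermediateField.adjoin L (Set.range t)) ≤ M + 1 →
      IsUniruled ℂ L (n + 1) ∨ KodGe ℂ L (n + 1) (fun _ => False) n) :=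
  K9h25.M.Cur.result hM hT hf hz hfz hgen hK hind ht hcl hu L

end Pool.Agent.Results.MP_23b606_ag.MildCurveFibrations
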