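import Pool.Agent.K9h25.M.Img

/-!
# Kodaira dimension `-∞` and uniruledness for the images of mildly singular hypersurfaces

Let `V` be a component, of dimension `n ≥ 1`, of a hypersurface `f = 0` in the torus
`(ℂ^*) ^ (n + 1)` which is mild along `V`: for all integral vectors `v` the logarithmic Hessian of
the initial part `ini v f` (the sum of the terms on which the linear function `v` is minimal) has
rank at least two, and at least three if `v = 0`, at all the points of the initial degeneration of
`V` in the direction `v` at which the logarithmic gradient of `ini v f` vanishes. The Newton polytope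
is arbitrary. So `V` may be singular in the torus (for example double points of rank at least three,
along subvarieties of any dimension), and on all strata at infinity (rank at least two). The
nondegenerate hypersurfaces (Khovanskii) are those without such points; hypersurfaces with few
monomials are mild for all nonzero values of the coefficients (`MP_e06174_ag.MildHypersurfaces`).

Let `t l = x ^ (w l)`, `y = x ^ v` be monomials such that `ℂ(V) = ℂ(t)(y)` has finite degree
`b` over `ℂ(t)`, and suppose that the image `V'` of `V` under `t` is uniruled, for example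
`V' = (ℂ^*) ^ n` (one may take the projection to a coordinate hyperplane). Let `r`
be a natural number such that for all divisors `c < b` of `b` there is a column in the Fine interior of
the Newton polytope: an `M` with `r ≤ c (M + 1)` such that the `u + j v` and the `u + j v + M w l`
are in the Fine interior for all `j < c`. For example, if `b` is a prime number then the condition is
that `u` and the `u + (r - 1) w l` are in the Fine interior; in general it is enough that the
`u + j v` and the `u + j v + (r - 1) w l` are in the Fine interior for `j < b / 2`. For a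
hypersurface of multidegree `(e 1, ..., e n, b)` in `(ℙ ^ 1) ^ (n + 1)` the condition is that
`e l ≥ r + 1` for all `l`, `b ≥ 2`.

Let `V ⇢ W` be any dominant rational map of degree `[ℂ(V) : ℂ(W)] = r`; it need not be a
quotient by a group, and its ramification is arbitrary. The theorem says that the
following are equivalent: `p_g(W) = 0`; `κ(W) = -∞`; `K_W` is not pseudo-effective; `W` is uniruled;
`V ⇢ W` factors through `V ⇢ V'`. If the condition on the columns holds for `2 r` instead of `r` then
they are also equivalent to: `W` is not of general type.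

So for all projective manifolds `X` which are birational to such an image `W`, `κ(X) = -∞` implies
that `X` is uniruled, and therefore it has a Gauduchon metric with positive total scalar curvature.

Proof. The starting theorem `MP_23b606_ag.ImagesOverUniruled` is the case of nondegenerate complete
intersections. Its proof, which is followed here, uses only the forms `x ^ u Res`, for the points
`u` in the Fine interior. They are regular for mild hypersurfaces: at a prime divisor at whose
general point the initial part of `f` is singular, with a Hessian of rank `s + 1`, the order of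
`Res` is at least `s - 2 - min ⟨supp f, v⟩` (`om_ge_A`, `exists_twisted_colA`).
-/

set_option autoImplicit false
set_option linter.overlappingInstances false
set_option maxHeartbeats 4000000
set_option synthInstance.maxHeartbeats 400000

open FF Module Pool.Agent Pool.Agent.W602.GT Pool.Agent.R885
open Pool.Agent.W619.PQ (IsUniruled)

namespace Pool.Agent.Results.MP_23b606_ag.MildImages

/-- The logarithmic Hessian matrix of `f` at the point `c` of the torus: the matrix of the second
derivatives with respect to the logarithms of the coordinates. -/
noncomputable def logHessian {r : ℕ} (c : Fin r → ℂ) (f : (Fin r → ℤ) →₀ ℂ) :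
    Matrix (Fin r) (Fin r) ℂ :=
  Matrix.of fun i j => f.sum fun m a => a * ((m i * m j : ℤ) : ℂ) * R885.mono c m

/-- The hypersurface `f = 0` is mild along its component with the generic point `x`: for all
integral vectors `v`, at the points `c` of the initial degeneration of this component in the
direction `v` at which the logarithmic gradient of `ini v f` vanishes, the logarithmic Hessian of
`ini v f` has rank at least two, and at least three if `v = 0`. -/
def IsMild {K : Type} [Field K] [Algebra ℂ K] {r : ℕ} (f : (Fin r → ℤ) →₀ ℂ) (x : Fin r → K) :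
    Prop :=
  ∀ (v : Fin r → ℤ) (c : Fin r → ℂ), (∀ i, c i ≠ 0) →
    (∀ g : (Fin r → ℤ) →₀ ℂ, ev x g = 0 → ev c (ini v g) = 0) → gr c (ini v f) = 0 →
      2 ≤ (logHessian c (ini v f)).rank ∧ (v = 0 → 3 ≤ (logHessian c (ini v f)).rank)

/-- `x` is the generic point of a component, with function field `K`, of the hypersurface `f = 0` of
the torus `(ℂ^*) ^ (n + 1)`. -/
structure IsGenericPoint {K : Type} [Field K] [Algebra ℂ K] {n : ℕ}
    (f : (Fin (n + 1) → ℤ) →₀ ℂ) (x : Fin (n + 1) → K) : Prop where
  x_ne : ∀ i, x i ≠ 0
  zero : ev x f = 0
  gen : IntermediateField.adjoin ℂ (Set.range x) = ⊤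
  dim : Algebra.trdeg ℂ K = (n : ℕ)

/-- The integral vector `u` is in the Fine interior of the Newton polytope of `f`. -/
def InFine {r : ℕ} (f : (Fin r → ℤ) →₀ ℂ) (u : Fin r → ℤ) : Prop :=
  ∀ v : Fin r → ℤ, v ≠ 0 → 1 + mn v f ≤ u ⬝ᵥ v

/-- For all divisors `c < b` of `b` there is a column of length `c` and of width `M`,
`r ≤ c (M + 1)`, in the Fine interior, in the direction `v`. -/
def HasColumns {m N : ℕ} (f : (Fin m → ℤ) →₀ ℂ) (v : Fin m → ℤ)
    (w : Fin N → Fin m → ℤ) (b r : ℕ) : Prop :=
  ∀ c : ℕ, c ∣ b → c < b → ∃ (M : ℕ) (u : Fin m → ℤ), r ≤ c * (M + 1) ∧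
    ∀ j < c, InFine f (u + (j : ℤ) • v) ∧ ∀ l, InFine f (u + (j : ℤ) • v + (M : ℤ) • w l)

/-- The geometric genus of the variety with the function field `L` is zero. -/
def GenusZero (L : Type) [Field L] [Algebra ℂ L] (n : ℕ) : Prop :=
  ∀ ω : (Fin n → Derivation ℂ L L) → L, IsPluri 1 ω →
    (∀ P : Place ℂ L, Divisorial n P → RegAt P ω) → ∀ D, ω D = 0

/-- **Images of mildly singular hypersurfaces.** Let `V` be a component, of dimension `n ≥ 1`, of
the hypersurface `f = 0` of the torus, with function field `K` and generic point `x`, such that the
hypersurface is mild along `V`. Let `t l` and `y` be the monomials with the exponents `w l` and `v`,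
`K = ℂ(t)(y)` finite over `ℂ(t)`, and let the image of `V` under `t` be uniruled. Let `V ⇢ W` be a
dominant rational map of finite degree, `L` the function field of `W`. If there are columns for
`[K : L]` in the Fine interior then these are equivalent: `p_g(W) = 0`; `κ(W) = -∞`; `K_W` is not
pseudo-effective; `W` is uniruled; `L` is contained in `ℂ(t)`. If there are columns for `2 [K : L]`
then `W` is of general type if and only if `L` is not contained in `ℂ(t)`. -/
theorem result {n N : ℕ} (hn : 1 ≤ n) {f : (Fin (n + 1) → ℤ) →₀ ℂ} {K : Type} [Field K]
    [Algebra ℂ K] {x : Fin (n + 1) → K} (hx : IsGenericPoint f x) (hf : IsMild f x)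
    {v : Fin (n + 1) → ℤ} {w : Fin N → Fin (n + 1) → ℤ} {t : Fin N → K} (ht : ∀ l, t l = R885.mono x (w l))
    [FiniteDimensional (IntermediateField.adjoin ℂ (Set.range t)) K]
    (hy : IntermediateField.adjoin (IntermediateField.adjoin ℂ (Set.range t))
      {R885.mono x v} = ⊤)
    (hV : IsUniruled ℂ (IntermediateField.adjoin ℂ (Set.range t)) n)
    (L : Type) [Field L] [Algebra ℂ L] [Algebra L K] [IsScalarTower ℂ L K]
    [FiniteDimensional L K] :
    (HasColumns f v w (Module.finrank (IntermediateField.adjoin ℂ (Set.range t)) K)
        (Module.finrank L K) →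
      [GenusZero L n, ¬ KodGe ℂ L n (fun _ => False) 0, ¬ Psef ℂ L n (fun _ => False),
        IsUniruled ℂ L n,
        ∀ g : L, algebraMap L K g ∈ IntermediateField.adjoin ℂ (Set.range t)].TFAE) ∧
    (HasColumns f v w (Module.finrank (IntermediateField.adjoin ℂ (Set.range t)) K)
        (2 * Module.finrank L K) →
      (¬ GeneralType ℂ L n ↔
        ∀ g : L, algebraMap L K g ∈ IntermediateField.adjoin ℂ (Set.range t))) := by
  classical
  have hess : Algebra.EssFiniteType ℂ K := by
    rw [← IntermediateField.fg_top_iff, ← hx.gen]
    exact ⟨Finset.univ.image x, by rw [Finset.coe_image, Finset.coe_univ, Set.image_univ]⟩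
  have hK := hx.dim
  have hfine : ∀ u, InFine f u → Pool.Agent.R882.LT.InFine (fun _ : Fin 1 => f) u := by
    intro u hu v' hv'
    rw [Fin.sum_univ_one]
    exact hu v' hv'
  have e : Fin 1 ⊕ Fin n ≃ Fin (n + 1) := Fintype.equivOfCardEq (by
    rw [Fintype.card_sum, Fintype.card_fin, Fintype.card_fin, Fintype.card_fin, add_comm])
  obtain ⟨Ω, hΩ, hne⟩ := Pool.Agent.K9h25.M.exists_twisted_colA (w := w) hK rfl hx.x_ne hx.gen e
    hx.zero hf
  have htE : t = fun l => R885.mono x (w l) := funext ht
  rw [← htE] at hΩ
  have hrange : Set.range (Fin.cons 1 t : Fin (N + 1) → K) = insert 1 (Set.range t) := by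
    rw [Fin.range_cons]
  have hadj : IntermediateField.adjoin ℂ (Set.range (Fin.cons 1 t : Fin (N + 1) → K)) =
      IntermediateField.adjoin ℂ (Set.range t) := by
    rw [hrange]
    apply le_antisymm
    · rw [IntermediateField.adjoin_le_iff]
      rintro g (rfl | hg)
      · exact one_mem _
      · exact IntermediateField.subset_adjoin _ _ hg
    · exact IntermediateField.adjoin.mono _ _ _ (Set.subset_insert _ _)
  have hbase : Pool.Agent.R882.Over.IsBase n (Fin.cons 1 t : Fin (N + 1) → K) := by
    refine ⟨hess, hK, ⟨0, Fin.cons_zero _ _⟩, ?_⟩
    rw [hadj]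
    infer_instance
  have hU : IsUniruled ℂ (IntermediateField.adjoin ℂ
      (Set.range (Fin.cons 1 t : Fin (N + 1) → K))) n := by
    rw [hadj]
    exact hV
  have hpos : ∀ r : ℕ, HasColumns f v w
      (Module.finrank (IntermediateField.adjoin ℂ (Set.range t)) K) r →
      Pool.Agent.R882.Over.Positive n (Fin.cons 1 t : Fin (N + 1) → K) r := by
    intro r hcol F hF
    rw [hadj] at hF
    -- the codegree
    let i1 : Algebra (IntermediateField.adjoin ℂ (Set.range t)) F :=
      (IntermediateField.inclusion hF.le).toRingHom.toAlgebra
    have i2 : IsScalarTower (IntermediateField.adjoin ℂ (Set.range t)) F K :=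
      IsScalarTower.of_algebraMap_eq fun g => rfl
    have i3 : FiniteDimensional F K :=
      Module.Finite.of_restrictScalars_finite (IntermediateField.adjoin ℂ (Set.range t)) F K
    have i4 : Module.Free (IntermediateField.adjoin ℂ (Set.range t)) F :=
      Module.Free.of_divisionRing _ _
    have i5 : Module.Free F K := Module.Free.of_divisionRing _ _
    have hmul := Module.finrank_mul_finrank (IntermediateField.adjoin ℂ (Set.range t)) F K
    have hpos2 : 0 < Module.finrank F K := Module.finrank_pos
    have hpos3 : 0 < Module.finrank (IntermediateField.adjoin ℂ (Set.range t)) K :=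
      Module.finrank_pos
    have hdvd : Module.finrank F K ∣
        Module.finrank (IntermediateField.adjoin ℂ (Set.range t)) K := Dvd.intro_left _ hmul
    have hlt : Module.finrank F K <
        Module.finrank (IntermediateField.adjoin ℂ (Set.range t)) K := by
      refine lt_of_le_of_ne (Nat.le_of_dvd hpos3 hdvd) fun h => ?_
      exact hF.ne (IntermediateField.eq_of_le_of_finrank_eq' hF.le h.symm)
    obtain ⟨M, u, hr, hcol'⟩ := hcol _ hdvd hlt
    refine ⟨M, hr, ?_⟩
    have hyF : IntermediateField.adjoin F {R885.mono x v} = ⊤ := by
      rw [eq_top_iff]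
      intro g _
      have h1 : g ∈ IntermediateField.adjoin (IntermediateField.adjoin ℂ (Set.range t))
          {R885.mono x v} := by
        rw [hy]
        trivial
      have hle : (IntermediateField.adjoin (IntermediateField.adjoin ℂ (Set.range t))
          {R885.mono x v}).toSubfield ≤
          (IntermediateField.adjoin F {R885.mono x v}).toSubfield := by
        change Subfield.closure _ ≤ _
        rw [Subfield.closure_le]
        rintro z (⟨c, rfl⟩ | hz)
        · exact (IntermediateField.adjoin F {R885.mono x v}).algebraMap_mem
            (⟨c, hF.le c.2⟩ : F)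
        · rw [Set.mem_singleton_iff.mp hz]
          exact IntermediateField.mem_adjoin_simple_self _ _
      exact hle h1
    have hΩ1 : IsPluri 1 (fun D => R885.mono x u * Ω D) := by
      obtain ⟨h1, h2⟩ := hcol' 0 hpos2
      have h3 := (hΩ M (u + ((0 : ℕ) : ℤ) • v) (hfine _ h1) fun l => hfine _ (h2 l)).1
      rw [Nat.cast_zero, zero_smul, add_zero] at h3
      exact h3
    obtain ⟨j, hj, D, D', hD, htr⟩ := Pool.Agent.R882.LT.col_detect (F := F) (y := R885.mono x v)
      (ω := fun D => R885.mono x u * Ω D) hK hyF
      (fun Z hZ D0 hD0 => mul_ne_zero (R885.mono_ne hx.x_ne _) (hne Z hZ D0 hD0))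
    have hform : (fun D : Fin n → Derivation ℂ K K => R885.mono x v ^ j *
        (R885.mono x u * Ω D)) = fun D => R885.mono x (u + (j : ℤ) • v) * Ω D := by
      funext D
      rw [R885.mono_add hx.x_ne, R885.mono_zsmul, zpow_natCast]
      ring
    obtain ⟨h1, h2⟩ := hcol' j hj
    have h3 := hΩ M _ (hfine _ h1) fun l => hfine _ (h2 l)
    refine ⟨fun D => R885.mono x v ^ j * (R885.mono x u * Ω D), ?_, fun g P hP => ?_,
      D, D', hD, htr⟩
    · rw [hform]
      exact h3.1
    · have h4 := h3.reg g P hP
      have h5 : ∀ D : Fin n → Derivation ℂ K K, R885.mono x v ^ j * (R885.mono x u * Ω D) =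
          R885.mono x (u + (j : ℤ) • v) * Ω D := fun D => congrFun hform D
      simp only [h5]
      exact h4
  obtain ⟨h1, h2⟩ := Pool.Agent.R882.Over.over_uniruled hn hbase hU L
  have hfac : Pool.Agent.R882.Over.FactorsThrough L (Fin.cons 1 t : Fin (N + 1) → K) ↔
      ∀ g : L, algebraMap L K g ∈ IntermediateField.adjoin ℂ (Set.range t) := by
    unfold Pool.Agent.R882.Over.FactorsThrough
    rw [hadj]
  rw [hfac] at h1 h2
  exact ⟨fun h => h1 (hpos _ h), fun h => h2 (hpos _ h)⟩

end Pool.Agent.Results.MP_23b606_ag.MildImages
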