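import Pool.Agent.K9h25.M.Zn
import Pool.Agent.Y191.CanA

/-!
# Pairs bounded by arbitrary hypersurfaces: when `K_X + Δ` is not pseudoeffective

Let `f` and `h 1, ..., h p` be Laurent polynomials in `n + 1` variables over `ℂ`, and let `X₀` be an
irreducible component, of dimension `n`, of the hypersurface `f = 0` of the torus
`T = (ℂ^*)^(n + 1)`, along which `f` vanishes to the first order; its function field is `L`, the `x i`
are the coordinates on `X₀`. There is no condition on the singularities: `X₀`, its closures in toric
varieties and their intersections with the torus orbits may have arbitrary singularities, and the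
coefficients of `f` may be arbitrary.

Let `A` be a weight: a function on the nonzero integral vectors with values in `[0, 1]`, with bounded
denominators, such that `1 - A` is subadditive and `A (g v) ≤ g A v`; let the `c j ≥ 0` be rational
numbers. Let `B` be the boundary on the toric varieties `Y ⊇ T` with the multiplicities `1 - A` at
infinity and `c j` on the divisors `h j = 0`. Its restriction to `X₀` has the multiplicity
`restriction` at the divisors `P` over `X₀`. For `ε ≥ 0` let `Polytope ε` be the set of the rational
vectors `u` such that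
`⟨u, v⟩ ≥ A v + ∑ j, c j * min ⟨supp (h j), v⟩ + min ⟨supp f, v⟩ - ε ∑ i, |v i|` for all integral
`v ≠ 0`; for `ε = 0` these are the points which give the sections of the multiples of
`K_Y + X₀ + B`. The assumption is that for some `ε > 0` the polytope is not empty, but small: the
image of `X₀` in the torus whose characters are the integral vectors parallel to `Polytope ε` has a
dimension less than `n` (for instance, `Polytope ε` is a point, and `n ≥ 1`). Then `Polytope 0` is
empty, and `ε` is the least number for which `Polytope ε` is not empty.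

Let `b` be any multiplicities on the divisors over `X₀`, bounded only from above, by `1` and by the
restriction of `B`. The pairs `(X, Δ)` of the theorem are the projective pairs such that the function
fields `K` of `X` and `L` of `X₀` have a common finite extension `M`, to which `K_X + Δ` and
`K_{X₀} + b` have the same pull-back, and the log discrepancies of `(X, Δ)` are at least the ones
given by `b`. For instance, let `Δ = 0`. Then `X` may be any manifold (or variety with canonical
singularities) for which there is a dominant rational map `X₀ ⇢ X` of finite degree, with arbitrary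
ramification (`M = L`, `b = 1 - e` along the divisors over `X₀` with ramification index `e`; theorem
`image` below); or a finite cover of such a variety which is branched along the components of `B`, if
the ramification indices `e'` satisfy `1 - 1 / e' ≤ restriction` (`b = 1 - 1 / e'`).

**Theorem.** `K_X + Δ` is not pseudoeffective, and `κ (K_X + Δ) = ν (K_X + Δ) = -∞`.

So the question has a positive answer for these manifolds `X` (`Δ = 0`), since they are uniruled and
have Gauduchon metrics of positive total scalar curvature, by the known equivalences.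

For `Δ = 0`, `B = 0` and `X` birational to `X₀` this is contained in part 1 of
`MP_e06174_ag.MildHypersurfaces`. The case of nondegenerate pairs (for complete intersections) is
contained in the starting theorems `NondegenerateEtaleQuotients`, `MP_9a2ae6_ag.NondegenerateLogPairs`.

The proof. Let `S` be the set of the tight vectors for `Polytope ε`, and consider the generic fibre
of the map given by the monomials parallel to the polytope. On this fibre there are charts, given by
monomials, such that the prime divisors on them have vectors `v` in the cones spanned by at most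
two vectors of `S`. The residue form of `X₀` has on these divisors bounded orders, from above: if the
gradient of `f` vanishes to a high order, the derivatives of all functions vanish to a high order;
if there are two vectors of `S`, then the initial part of `f` is not homogeneous for both. With the
upper bounds for the multiplicities `b` this shows that the quotients of the sections of
`m (K_{X₀} + b) + A'` by the powers of `x^u Ω` have zeros of orders growing with `m` along the divisors
at infinity, while their poles are bounded (`neg_zeroM`). So they vanish for large `m`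
(`MSys0.neg`).
-/

set_option autoImplicit false

open FF IntermediateField Pool.Agent Pool.Agent.W602.GT Pool.Agent.Y172 Pool.Agent.Y191
  Pool.Agent.Y174 Pool.Agent.R885

namespace Pool.Agent.Results.MP_23b606_ag.NegativePolytopes

section

variable {L : Type} [Field L] [Algebra ℂ L]

/-- `x` is the generic point of a component `X₀`, with function field `L`, of the hypersurface
`f = 0` of the torus `(ℂ^*) ^ (n + 1)`, not contained in the sets `h j = 0`, and the logarithmic
gradient of `f` does not vanish identically on `X₀`. -/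
def IsGenericPoint {n p : ℕ} (f : (Fin (n + 1) → ℤ) →₀ ℂ) (h : Fin p → (Fin (n + 1) → ℤ) →₀ ℂ)
    (x : Fin (n + 1) → L) : Prop :=
  (∀ i, x i ≠ 0) ∧ ev x f = 0 ∧ gr x f ≠ 0 ∧ (∀ j, ev x (h j) ≠ 0) ∧
    IntermediateField.adjoin ℂ (Set.range x) = ⊤ ∧ Algebra.trdeg ℂ L = (n : ℕ)

/-- The function `A` on the integral vectors is a weight: on the nonzero vectors it is at least `0`,
at most `1`, with bounded denominators, `A (v + w) ≥ A v + A w - 1` and `A (g v) ≤ g A v`. -/
structure IsWeight {r : ℕ} (A : (Fin r → ℤ) → ℚ) : Prop where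
  nonneg : ∀ v, v ≠ 0 → 0 ≤ A v
  le_one : ∀ v, A v ≤ 1
  denom : ∃ D : ℕ, 1 ≤ D ∧ ∀ v, ∃ z : ℤ, (D : ℚ) * A v = z
  add : ∀ v w, v ≠ 0 → w ≠ 0 → v + w ≠ 0 → A v + A w - 1 ≤ A (v + w)
  smul : ∀ (g : ℤ) v, 0 < g → v ≠ 0 → A (g • v) ≤ g * A v

open Classical in
/-- The multiplicity at `P` of the restriction to `X₀` of the boundary `B` of the toric varieties,
with the multiplicities `1 - A` at infinity and `c j` on the closures of the divisors `h j = 0`. -/
noncomputable def restriction {n p : ℕ} (A : (Fin (n + 1) → ℤ) → ℚ) (c : Fin p → ℚ)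
    (h : Fin p → (Fin (n + 1) → ℤ) →₀ ℂ) (x : Fin (n + 1) → L) (P : Place ℂ L) : ℚ :=
  (if vec P x = 0 then 0 else 1 - A (vec P x)) +
    ∑ j, c j * ((P.ord (ev x (h j)) : ℚ) - mn (vec P x) (h j))

end

section

variable {K L : Type} [Field K] [Field L] [Algebra ℂ K] [Algebra ℂ L]

/-- `(X, Δ)` is a projective pair with function field `K` which is commensurable with the pair
`(X₀, b)` with function field `L`: the pull-backs of `K_X + Δ` and of `K_{X₀} + b` to the common finite
extension `M` of `K` and `L` coincide. That is, if the place `P'` of `M` lies over the prime divisor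
`P` of `X` and over the place `Q` of `L`, with the ramification indices `e` and `e'`, then
`e (1 - Δ P) = e' (1 - b Q)`. Moreover, for all divisors `P` over `X`, the log discrepancy of `(X, Δ)`
along `P` is at least `e' (1 - b Q) / e`. -/
structure IsCommensurable (M : Type) [Field M] [Algebra ℂ M] [Algebra K M] [Algebra L M]
    (b : Place ℂ L → ℚ) {N : ℕ} (y : Fin (N + 1) → K) (n : ℕ) (Δ : Place ℂ K → ℚ) : Prop where
  normal : NormalModel y
  effective : Effective y Δ
  mult : ∀ P, IsPrimeDivisor y P → ∀ (P' : Place ℂ M) (Q : Place ℂ L) (e e' : ℕ),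
    LiesOn P' P e → LiesOn P' Q e' → (e : ℚ) * (1 - Δ P) = e' * (1 - b Q)
  disc : ∀ P, Divisorial n P → ∀ (P' : Place ℂ M) (Q : Place ℂ L) (e e' : ℕ),
    LiesOn P' P e → LiesOn P' Q e' → LogDisc y n Δ P (e' * (1 - b Q) / e)

end

/-- The rational vectors `u` such that
`⟨u, v⟩ ≥ A v + ∑ j, c j * min ⟨supp (h j), v⟩ + min ⟨supp f, v⟩ - ε ∑ i, |v i|` for all integral
`v ≠ 0`. -/
def Polytope {r p : ℕ} (A : (Fin r → ℤ) → ℚ) (c : Fin p → ℚ) (f : (Fin r → ℤ) →₀ ℂ)
    (h : Fin p → (Fin r → ℤ) →₀ ℂ) (ε : ℚ) : Set (Fin r → ℚ) :=
  {u | ∀ v : Fin r → ℤ, v ≠ 0 → A v + ∑ j, c j * (mn v (h j) : ℚ) + (mn v f : ℚ) -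
    ε * ∑ i, |(v i : ℚ)| ≤ ∑ i, u i * (v i : ℚ)}

/-- The integral vectors which are parallel to the polytope. -/
def Directions {r p : ℕ} (A : (Fin r → ℤ) → ℚ) (c : Fin p → ℚ) (f : (Fin r → ℤ) →₀ ℂ)
    (h : Fin p → (Fin r → ℤ) →₀ ℂ) (ε : ℚ) : Set (Fin r → ℤ) :=
  {w | ∃ u ∈ Polytope A c f h ε, ∃ N : ℕ, 1 ≤ N ∧
    (fun i => u i + (w i : ℚ) / N) ∈ Polytope A c f h ε}

/-- For some `ε > 0` the polytope is not empty, and the image of `X₀` in the torus whose characters
are the integral vectors parallel to it has a dimension less than `n`. -/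
def IsSmallOn {L : Type} [Field L] [Algebra ℂ L] {r p : ℕ} (n : ℕ) (A : (Fin r → ℤ) → ℚ)
    (c : Fin p → ℚ) (f : (Fin r → ℤ) →₀ ℂ) (h : Fin p → (Fin r → ℤ) →₀ ℂ) (x : Fin r → L) : Prop :=
  ∃ ε : ℚ, 0 < ε ∧ (Polytope A c f h ε).Nonempty ∧ ∃ d < n,
    Algebra.trdeg ℂ (IntermediateField.adjoin ℂ {z : L |
      ∃ w ∈ Directions A c f h ε, z = R885.mono x w}) = (d : ℕ)

/-- `K_X + Δ` is not pseudoeffective, and `κ (K_X + Δ) = ν (K_X + Δ) = -∞`. -/
def Negative {K : Type} [Field K] [Algebra ℂ K] {N : ℕ} (y : Fin (N + 1) → K) (n : ℕ)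
    (Δ : Place ℂ K → ℚ) : Prop :=
  kodairaDim y n Δ = ⊥ ∧ ∀ A, Effective y A →
    (∃ M0 : ℕ, ∀ m : ℕ, M0 ≤ m → h0 y n m (m • Δ + A) = 0) ∧ numericalDim y n Δ A = ⊥

/-- **Pairs bounded by arbitrary hypersurfaces.** Let `f`, `h` be Laurent polynomials in `n + 1`
variables, let `x` be the generic point of a component `X₀` of the hypersurface `f = 0` of the torus,
with function field `L`, on which the gradient of `f` does not vanish identically. Let `A` be a
weight, `0 ≤ c j`, and suppose that for some `ε > 0` the polytope is not empty and the image of `X₀`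
by the monomials parallel to it has a dimension less than `n`. Let `b P ≤ 1` be multiplicities which
are at most those of the restriction of the boundary. Let `(X, Δ)` be a projective pair with
function field `K`, and let `M` be a finite extension of `K` and of `L` such that the pull-backs of
`K_X + Δ` and of `K_{X₀} + b` to `M` coincide. Then `K_X + Δ` is not pseudoeffective. -/
theorem result {n p : ℕ} {f : (Fin (n + 1) → ℤ) →₀ ℂ}
    {h : Fin p → (Fin (n + 1) → ℤ) →₀ ℂ} {K L M : Type} [Field K] [Field L] [Field M]
    [Algebra ℂ K] [Algebra ℂ L] [Algebra ℂ M] [Algebra K M] [Algebra L M] [IsScalarTower ℂ K M]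
    [IsScalarTower ℂ L M] [FiniteDimensional K M] [FiniteDimensional L M] {x : Fin (n + 1) → L}
    (hx : IsGenericPoint f h x) {A : (Fin (n + 1) → ℤ) → ℚ} (hA : IsWeight A) {c : Fin p → ℚ}
    (hc : ∀ j, 0 ≤ c j) (hpt : IsSmallOn n A c f h x) {b : Place ℂ L → ℚ}
    (hb : ∀ P, b P ≤ 1 ∧ b P ≤ restriction A c h x P) {N : ℕ} {y : Fin (N + 1) → K}
    {Δ : Place ℂ K → ℚ} (hy : IsCommensurable M b y n Δ) : Negative y n Δ := by
  classical
  obtain ⟨ε, hε, hF, d, hdn, hd⟩ := hpt
  have hpoly : Polytope A c f h ε =
      R885.N.FineG A (fun v => ∑ j, c j * (mn v (h j) : ℚ) - ε * R885.N.n1 v)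
        (fun _ : Fin 1 => f) := by
    unfold Polytope R885.N.FineG R885.N.n1
    ext u
    simp only [Fin.sum_univ_one, Set.mem_ofPred_eq]
    refine forall_congr' fun v => forall_congr' fun hv => ?_
    have h1 : ∀ a b c' e : ℚ, a + b + c' - e = a + (b - e) + c' := fun a b c' e => by ring
    rw [h1]
    rfl
  have hdirs : Directions A c f h ε =
      R885.N.dirsG A (fun v => ∑ j, c j * (mn v (h j) : ℚ) - ε * R885.N.n1 v)
        (fun _ : Fin 1 => f) := by
    unfold Directions
    rw [hpoly]
    rfl
  obtain ⟨hx1, hx2, hx3, hx4, hx5, hx6⟩ := hx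
  rw [hpoly] at hF
  rw [hdirs] at hd
  exact K9h25.M.neg_final (M := M) hx6 hx1 hx5 hx2 hx3 hx4
    ⟨hA.nonneg, hA.le_one, hA.denom, hA.add, hA.smul⟩ hc (fun P => (hb P).1) (fun P => by
      have h2 := (hb P).2
      unfold restriction at h2
      convert h2) hε hF hdn hd ⟨hy.normal, hy.effective, hy.mult, hy.disc⟩

/-- **Images.** Let `X₀ ⇢ X` be any dominant rational map of finite degree, where for some `ε > 0` the
polytope is not empty and the image of `X₀` by the monomials parallel to it has a dimension less
than `n`, and `X` is a manifold or has canonical singularities. Then `K_X` is not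
pseudoeffective. -/
theorem image {n : ℕ} {f : (Fin (n + 1) → ℤ) →₀ ℂ} {K L : Type} [Field K] [Field L]
    [Algebra ℂ K] [Algebra ℂ L] [Algebra K L] [IsScalarTower ℂ K L] [FiniteDimensional K L]
    {x : Fin (n + 1) → L} (hx : IsGenericPoint f (fun _ : Fin 0 => f) x)
    (hpt : IsSmallOn n (fun _ => 1) (fun _ : Fin 0 => 0) f (fun _ => f) x) {N : ℕ}
    {y : Fin (N + 1) → K} (hy : NormalModel y) (hcan : Pool.Agent.Y191.Canonical y n) :
    Negative y n 0 := by
  classical
  choose e0 v0 hv0 using fun w : Place ℂ L => Pool.Agent.W73.PG.PULL.exists_over' (K := K) w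
  refine result (M := L) hx (A := fun _ => 1) ⟨fun _ _ => zero_le_one, fun _ => le_rfl,
    ⟨1, le_rfl, fun v => ⟨1, by norm_num⟩⟩, fun _ _ _ _ _ => by norm_num, fun g v hg _ => ?_⟩
    (c := fun _ : Fin 0 => 0) (fun j => j.elim0) hpt (b := fun P => 1 - e0 P) (fun P => ?_)
    ⟨hy, ?_, ?_, ?_⟩
  · have h1 : (1 : ℚ) ≤ g := by exact_mod_cast hg
    linarith
  · have h1 : (1 : ℚ) ≤ e0 P := by
      have := (hv0 P).1
      exact_mod_cast this
    refine ⟨by linarith, ?_⟩
    unfold restriction
    simp only [sub_self, ite_self, Finset.univ_eq_empty, Finset.sum_empty, add_zero]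
    linarith
  · exact ⟨fun P _ => le_rfl, Set.finite_empty.subset (by rintro P ⟨-, h⟩; exact h rfl)⟩
  · intro P hP P' Q e e' h h'
    obtain ⟨h1, h2⟩ := R885.N.over_uniq h' (⟨one_pos, fun g => by
      rw [Algebra.algebraMap_self, RingHom.id_apply, Nat.cast_one, one_mul]⟩ : LiesOn P' P' 1)
    obtain ⟨h3, -⟩ := R885.N.over_uniq h (hv0 P')
    rw [h1, h2, h3, Pi.zero_apply]
    push_cast
    ring
  · intro P hP P' Q e e' h h'
    obtain ⟨h1, h2⟩ := R885.N.over_uniq h' (⟨one_pos, fun g => by
      rw [Algebra.algebraMap_self, RingHom.id_apply, Nat.cast_one, one_mul]⟩ : LiesOn P' P' 1)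
    obtain ⟨h3, -⟩ := R885.N.over_uniq h (hv0 P')
    have he : (0 : ℚ) < e0 P' := by
      have := (hv0 P').1
      exact_mod_cast this
    have h4 : ((e' : ℕ) : ℚ) * (1 - (1 - (e0 Q : ℚ))) / e = 1 := by
      rw [h1, h2, h3]
      field_simp
      ring
    rw [h4]
    obtain ⟨r, hr, η, hη, h5, h6⟩ := hcan P hP
    refine Or.inr ⟨r, hr, η, hη, fun P1 hP1 hP2 => ?_, ?_⟩
    · rw [Pi.zero_apply, mul_zero, neg_zero]
      exact h5 P1 hP1 hP2
    · rw [sub_self, mul_zero]
      exact h6

end Pool.Agent.Results.MP_23b606_ag.NegativePolytopes
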