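import Pool.Agent.K9h25.M.Zf
import Pool.Agent.Y191.CanA

/-!
# Abundance for pairs bounded by arbitrary hypersurfaces whose polytope is a point

Let `f` and `h 1, ..., h p` be Laurent polynomials in `n + 1` variables over `ℂ`, `n ≥ 1`, and let
`X₀` be an irreducible component of the hypersurface `f = 0` of the torus `T = (ℂ^*)^(n + 1)`, along
which `f` vanishes to the first order; its function field is `L`, the `x i` are the coordinates on
`X₀`. There is no condition on the singularities: `X₀`, its closures in toric varieties and their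
intersections with the torus orbits may have arbitrary singularities, and the coefficients of `f` may
be arbitrary.

Let `A` be a weight: a function on the nonzero integral vectors with values in `[0, 1]`, with bounded
denominators, such that `1 - A` is subadditive and `A (g v) ≤ g A v`; let the `c j ≥ 0` be rational
numbers. Let `B` be the boundary on the toric varieties `Y ⊇ T` with the multiplicities `1 - A` at
infinity and `c j` on the divisors `h j = 0`. Its restriction to `X₀` has the multiplicity
`restriction` at the divisors `P` over `X₀`. The polytope of `K_Y + X₀ + B` is the set of the vectors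
`u` such that `⟨u, v⟩ ≥ A v + ∑ j, c j * min ⟨supp (h j), v⟩ + min ⟨supp f, v⟩` for all integral
`v ≠ 0`; for `B = 0` (`A = 1`, no `h j`) it is the Fine interior of the Newton polytope of `f`. The
assumption is that it is a point; or, more generally, that it is not empty and the monomials
parallel to it are constant on `X₀`.

Let `b` be any multiplicities on the divisors over `X₀`, bounded only from above, by `1` and by the
restriction of `B`. The pairs `(X, Δ)` of the theorem are the projective pairs such that the function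
fields `K` of `X` and `L` of `X₀` have a common finite extension `M`, to which `K_X + Δ` and
`K_{X₀} + b` have the same pull-back, and the log discrepancies of `(X, Δ)` are at least the ones
given by `b`. For instance, let `B = 0`, `Δ = 0`, and let the Fine interior of `f` be a point. Then `X`
may be any manifold (or variety with canonical singularities) for which there is a dominant
rational map `X₀ ⇢ X` of finite degree, with arbitrary ramification (`M = L`, `b = 1 - e` along the
divisors over `X₀` with ramification index `e`; theorem `image` below), for example a manifold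
birational to `X₀` (`b = 0`).

**Theorem.** Either `K_X + Δ` is pseudoeffective and `κ (K_X + Δ) = ν (K_X + Δ) = 0`, or `K_X + Δ` is
not pseudoeffective and `κ (K_X + Δ) = ν (K_X + Δ) = -∞`.

So for all projective manifolds `X` of this kind, if `κ(X) = -∞` then `K_X` is not pseudoeffective,
and then `X` has a Gauduchon metric of positive total scalar curvature, and is uniruled, by the
known equivalences.

The proof. Let `u` be a point of the polytope, and let `Ω` be the residue form of `X₀`. The proof of the
upper bounds for the hypersurfaces of `MP_e06174_ag.AdjointPairs` (`num_zeroM`), which does not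
use lower bounds for the multiplicities, shows more: for every divisor `A'` the quotients
of the sections of `m (K_{X₀} + b) + A'` by `x^(m u) Ω^m` are, for all `m`, in a bounded family (their
poles are bounded). Then also their zeros are bounded (`ord_bdd`: functions with different orders
are linearly independent). If `K_{X₀} + b` is pseudoeffective then there are such sections for
arbitrarily large `m`, and in the limit the form `x^u Ω` is effective: its order at every divisor
`P` over `X₀` is at least `-b P` (`lim_zeroM`). So `x^u Ω` gives a section of a multiple of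
`K_{X₀} + b` (`USys.zero`). The residue form itself may have poles of arbitrary order, if
`K_{X₀} + b` is not pseudoeffective.
-/

set_option autoImplicit false

open FF IntermediateField Pool.Agent Pool.Agent.W602.GT Pool.Agent.Y172 Pool.Agent.Y191
  Pool.Agent.Y174 Pool.Agent.R885

namespace Pool.Agent.Results.MP_23b606_ag.PointPolytopes

section

variable {L : Type} [Field L] [Algebra ℂ L]

/-- `x` is the generic point of a component `X₀`, with function field `L`, of the hypersurface
`f = 0` of the torus `(ℂ^*) ^ (n + 1)`, not contained in the sets `h j = 0`, and the logarithmic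
gradient of `f` does not vanish identically on `X₀`. -/
def IsGenericPoint {n p : ℕ} (f : (Fin (n + 1) → ℤ) →₀ ℂ) (h : Fin p → (Fin (n + 1) → ℤ) →₀ ℂ)
    (x : Fin (n + 1) → L) : Prop :=
  (∀ i, x i ≠ 0) ∧ ev x f = 0 ∧ gr x f ≠ 0 ∧ (∀ j, ev x (h j) ≠ 0) ∧
    IntermediateField.adjoin ℂ (Set.range x) = ⊤ ∧ Algebra.trdeg ℂ L = (n : ℕ)

/-- The function `A` on the integral vectors is a weight: on the nonzero vectors it is at least `0`,
at most `1`, with bounded denominators, `A (v + w) ≥ A v + A w - 1` and `A (g v) ≤ g A v`. -/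
structure IsWeight {r : ℕ} (A : (Fin r → ℤ) → ℚ) : Prop where
  nonneg : ∀ v, v ≠ 0 → 0 ≤ A v
  le_one : ∀ v, A v ≤ 1
  denom : ∃ D : ℕ, 1 ≤ D ∧ ∀ v, ∃ z : ℤ, (D : ℚ) * A v = z
  add : ∀ v w, v ≠ 0 → w ≠ 0 → v + w ≠ 0 → A v + A w - 1 ≤ A (v + w)
  smul : ∀ (g : ℤ) v, 0 < g → v ≠ 0 → A (g • v) ≤ g * A v

open Classical in
/-- The multiplicity at `P` of the restriction to `X₀` of the boundary `B` of the toric varieties,
with the multiplicities `1 - A` at infinity and `c j` on the closures of the divisors `h j = 0`. -/
noncomputable def restriction {n p : ℕ} (A : (Fin (n + 1) → ℤ) → ℚ) (c : Fin p → ℚ)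
    (h : Fin p → (Fin (n + 1) → ℤ) →₀ ℂ) (x : Fin (n + 1) → L) (P : Place ℂ L) : ℚ :=
  (if vec P x = 0 then 0 else 1 - A (vec P x)) +
    ∑ j, c j * ((P.ord (ev x (h j)) : ℚ) - mn (vec P x) (h j))

end

section

variable {K L : Type} [Field K] [Field L] [Algebra ℂ K] [Algebra ℂ L]

/-- `(X, Δ)` is a projective pair with function field `K` which is commensurable with the pair
`(X₀, b)` with function field `L`: the pull-backs of `K_X + Δ` and of `K_{X₀} + b` to the common finite
extension `M` of `K` and `L` coincide. That is, if the place `P'` of `M` lies over the prime divisor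
`P` of `X` and over the place `Q` of `L`, with the ramification indices `e` and `e'`, then
`e (1 - Δ P) = e' (1 - b Q)`. Moreover, for all divisors `P` over `X`, the log discrepancy of `(X, Δ)`
along `P` is at least `e' (1 - b Q) / e`. -/
structure IsCommensurable (M : Type) [Field M] [Algebra ℂ M] [Algebra K M] [Algebra L M]
    (b : Place ℂ L → ℚ) {N : ℕ} (y : Fin (N + 1) → K) (n : ℕ) (Δ : Place ℂ K → ℚ) : Prop where
  normal : NormalModel y
  effective : Effective y Δ
  mult : ∀ P, IsPrimeDivisor y P → ∀ (P' : Place ℂ M) (Q : Place ℂ L) (e e' : ℕ),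
    LiesOn P' P e → LiesOn P' Q e' → (e : ℚ) * (1 - Δ P) = e' * (1 - b Q)
  disc : ∀ P, Divisorial n P → ∀ (P' : Place ℂ M) (Q : Place ℂ L) (e e' : ℕ),
    LiesOn P' P e → LiesOn P' Q e' → LogDisc y n Δ P (e' * (1 - b Q) / e)

end

/-- The polytope of `K_Y + X₀ + B`: the rational vectors `u` such that
`⟨u, v⟩ ≥ A v + ∑ j, c j * min ⟨supp (h j), v⟩ + min ⟨supp f, v⟩` for all integral `v ≠ 0`. -/
def Polytope {r p : ℕ} (A : (Fin r → ℤ) → ℚ) (c : Fin p → ℚ) (f : (Fin r → ℤ) →₀ ℂ)
    (h : Fin p → (Fin r → ℤ) →₀ ℂ) : Set (Fin r → ℚ) :=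
  {u | ∀ v : Fin r → ℤ, v ≠ 0 →
    A v + ∑ j, c j * (mn v (h j) : ℚ) + (mn v f : ℚ) ≤ ∑ i, u i * (v i : ℚ)}

/-- The integral vectors which are parallel to the polytope. -/
def Directions {r p : ℕ} (A : (Fin r → ℤ) → ℚ) (c : Fin p → ℚ) (f : (Fin r → ℤ) →₀ ℂ)
    (h : Fin p → (Fin r → ℤ) →₀ ℂ) : Set (Fin r → ℤ) :=
  {w | ∃ u ∈ Polytope A c f h, ∃ N : ℕ, 1 ≤ N ∧ (fun i => u i + (w i : ℚ) / N) ∈ Polytope A c f h}

/-- The monomials which are parallel to the polytope are constant on `X₀`; for instance, the
polytope is a point. -/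
def IsPointOn {L : Type} [Field L] [Algebra ℂ L] {r p : ℕ} (A : (Fin r → ℤ) → ℚ) (c : Fin p → ℚ)
    (f : (Fin r → ℤ) →₀ ℂ) (h : Fin p → (Fin r → ℤ) →₀ ℂ) (x : Fin r → L) : Prop :=
  (Polytope A c f h).Nonempty ∧
    ∀ w ∈ Directions A c f h, ∃ a : ℂ, R885.mono x w = algebraMap ℂ L a

/-- Either `κ (K_X + Δ) = ν (K_X + Δ) = 0`, for all effective integral divisors `A` in the definition
of `ν`, or both are `-∞` and `K_X + Δ` is not pseudoeffective. -/
def ZeroOrNegative {K : Type} [Field K] [Algebra ℂ K] {N : ℕ} (y : Fin (N + 1) → K) (n : ℕ)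
    (Δ : Place ℂ K → ℚ) : Prop :=
  (kodairaDim y n Δ = ((0 : ℕ) : WithBot ℕ) ∧
    ∀ A, Effective y A → Integral y A → numericalDim y n Δ A = ((0 : ℕ) : EReal)) ∨
  (kodairaDim y n Δ = ⊥ ∧ ∀ A, Effective y A →
    (∃ M0 : ℕ, ∀ m : ℕ, M0 ≤ m → h0 y n m (m • Δ + A) = 0) ∧ numericalDim y n Δ A = ⊥)

/-- **Pairs bounded by arbitrary hypersurfaces whose polytope is a point.** Let `n ≥ 1`, let `f`, `h`
be Laurent polynomials in `n + 1` variables, let `x` be the generic point of a component `X₀` of the
hypersurface `f = 0` of the torus, with function field `L`, on which the gradient of `f` does not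
vanish identically. Let `A` be a weight, `0 ≤ c j`, and let the polytope be a point, or let the
monomials parallel to it be constant on `X₀`. Let `b P ≤ 1` be multiplicities which are at most those of
the restriction of the boundary. Let `(X, Δ)` be a projective pair with function field `K`, and let
`M` be a finite extension of `K` and of `L` such that the pull-backs of `K_X + Δ` and of `K_{X₀} + b`
to `M` coincide. Then `κ (K_X + Δ) = ν (K_X + Δ)`, and this is `0` or `-∞`. -/
theorem result {n p : ℕ} (hn : 1 ≤ n) {f : (Fin (n + 1) → ℤ) →₀ ℂ}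
    {h : Fin p → (Fin (n + 1) → ℤ) →₀ ℂ} {K L M : Type} [Field K] [Field L] [Field M]
    [Algebra ℂ K] [Algebra ℂ L] [Algebra ℂ M] [Algebra K M] [Algebra L M] [IsScalarTower ℂ K M]
    [IsScalarTower ℂ L M] [FiniteDimensional K M] [FiniteDimensional L M] {x : Fin (n + 1) → L}
    (hx : IsGenericPoint f h x) {A : (Fin (n + 1) → ℤ) → ℚ} (hA : IsWeight A) {c : Fin p → ℚ}
    (hc : ∀ j, 0 ≤ c j) (hpt : IsPointOn A c f h x) {b : Place ℂ L → ℚ}
    (hb : ∀ P, b P ≤ 1 ∧ b P ≤ restriction A c h x P) {N : ℕ} {y : Fin (N + 1) → K}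
    {Δ : Place ℂ K → ℚ} (hy : IsCommensurable M b y n Δ) : ZeroOrNegative y n Δ := by
  classical
  have hpoly : Polytope A c f h =
      R885.N.FineG A (fun v => ∑ j, c j * (mn v (h j) : ℚ)) (fun _ : Fin 1 => f) := by
    unfold Polytope R885.N.FineG
    simp only [Fin.sum_univ_one]
    rfl
  have hdirs : Directions A c f h =
      R885.N.dirsG A (fun v => ∑ j, c j * (mn v (h j) : ℚ)) (fun _ : Fin 1 => f) := by
    unfold Directions
    rw [hpoly]
    rfl
  obtain ⟨hx1, hx2, hx3, hx4, hx5, hx6⟩ := hx
  obtain ⟨hF, hd⟩ := hpt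
  rw [hpoly] at hF
  rw [hdirs] at hd
  have h1 := K9h25.M.zero_final (M := M) hn hx6 hx1 hx5 hx2 hx3 hx4
    ⟨hA.nonneg, hA.le_one, hA.denom, hA.add, hA.smul⟩ hc (fun P => (hb P).1) (fun P => by
      have h2 := (hb P).2
      unfold restriction at h2
      convert h2) hF hd ⟨hy.normal, hy.effective, hy.mult, hy.disc⟩
  exact K9h25.M.PData.zero h1 hy.normal hy.effective

/-- **Images.** Let `X₀ ⇢ X` be any dominant rational map of finite degree, where the Fine interior of
the Newton polytope of `f` is a point (or the monomials parallel to it are constant on `X₀`), and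
`X` is a manifold or has canonical singularities. Then `κ(X) = ν(X) = 0`, or `κ(X) = -∞` and
`K_X` is not pseudoeffective. -/
theorem image {n : ℕ} (hn : 1 ≤ n) {f : (Fin (n + 1) → ℤ) →₀ ℂ} {K L : Type} [Field K] [Field L]
    [Algebra ℂ K] [Algebra ℂ L] [Algebra K L] [IsScalarTower ℂ K L] [FiniteDimensional K L]
    {x : Fin (n + 1) → L} (hx : IsGenericPoint f (fun _ : Fin 0 => f) x)
    (hpt : IsPointOn (fun _ => 1) (fun _ : Fin 0 => 0) f (fun _ => f) x) {N : ℕ}
    {y : Fin (N + 1) → K} (hy : NormalModel y) (hcan : Pool.Agent.Y191.Canonical y n) :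
    ZeroOrNegative y n 0 := by
  classical
  choose e0 v0 hv0 using fun w : Place ℂ L => Pool.Agent.W73.PG.PULL.exists_over' (K := K) w
  refine result (M := L) hn hx (A := fun _ => 1) ⟨fun _ _ => zero_le_one, fun _ => le_rfl,
    ⟨1, le_rfl, fun v => ⟨1, by norm_num⟩⟩, fun _ _ _ _ _ => by norm_num, fun g v hg _ => ?_⟩
    (c := fun _ : Fin 0 => 0) (fun j => j.elim0) hpt (b := fun P => 1 - e0 P) (fun P => ?_)
    ⟨hy, ?_, ?_, ?_⟩
  · have h1 : (1 : ℚ) ≤ g := by exact_mod_cast hg
    linarith
  · have h1 : (1 : ℚ) ≤ e0 P := by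
      have := (hv0 P).1
      exact_mod_cast this
    refine ⟨by linarith, ?_⟩
    unfold restriction
    simp only [sub_self, ite_self, Finset.univ_eq_empty, Finset.sum_empty, add_zero]
    linarith
  · exact ⟨fun P _ => le_rfl, Set.finite_empty.subset (by rintro P ⟨-, h⟩; exact h rfl)⟩
  · intro P hP P' Q e e' h h'
    obtain ⟨h1, h2⟩ := R885.N.over_uniq h' (⟨one_pos, fun g => by
      rw [Algebra.algebraMap_self, RingHom.id_apply, Nat.cast_one, one_mul]⟩ : LiesOn P' P' 1)
    obtain ⟨h3, -⟩ := R885.N.over_uniq h (hv0 P')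
    rw [h1, h2, h3, Pi.zero_apply]
    push_cast
    ring
  · intro P hP P' Q e e' h h'
    obtain ⟨h1, h2⟩ := R885.N.over_uniq h' (⟨one_pos, fun g => by
      rw [Algebra.algebraMap_self, RingHom.id_apply, Nat.cast_one, one_mul]⟩ : LiesOn P' P' 1)
    obtain ⟨h3, -⟩ := R885.N.over_uniq h (hv0 P')
    have he : (0 : ℚ) < e0 P' := by
      have := (hv0 P').1
      exact_mod_cast this
    have h4 : ((e' : ℕ) : ℚ) * (1 - (1 - (e0 Q : ℚ))) / e = 1 := by
      rw [h1, h2, h3]
      field_simp
      ring
    rw [h4]
    obtain ⟨r, hr, η, hη, h5, h6⟩ := hcan P hP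
    refine Or.inr ⟨r, hr, η, hη, fun P1 hP1 hP2 => ?_, ?_⟩
    · rw [Pi.zero_apply, mul_zero, neg_zero]
      exact h5 P1 hP1 hP2
    · rw [sub_self, mul_zero]
      exact h6

end Pool.Agent.Results.MP_23b606_ag.PointPolytopes
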